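import Pool.Agent.QSB.StmtsU
import Pool.Agent.Helper12_QSN.SLS
import Pool.Agent.Helper67_QSN.SLR

/-!
# Squad QSB (MP_dc0713_gt), row ALC: the real numbers, the complex numbers, the quaternions
-/

set_option autoImplicit false

namespace Pool.Agent.QSB.H30A

open Matrix Finset Pool.Agent.QSX Pool.Agent.QSN Pool.Agent.QSB

theorem inv_reg {k : ℕ} (A : Type) [DivisionRing A] [Algebra ℝ A] (b : Module.Basis (Fin k) ℝ A) :
    ∀ a ∈ reg A b, a ≠ 0 → ∃ b' ∈ reg A b, a * b' = 1 := by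
  intro a ha h0
  obtain ⟨y, hy⟩ := (Pool.Agent.QSN.H67.slr k A b).1 ⟨a, ha⟩ (fun h => h0 (congrArg Subtype.val h))
  exact ⟨y.1, y.2, congrArg Subtype.val hy⟩

theorem tr_real : ∀ a ∈ reg ℝ (Module.Basis.singleton (Fin 1) ℝ),
    aᵀ ∈ reg ℝ (Module.Basis.singleton (Fin 1) ℝ) := by
  intro a ha
  have h : aᵀ = a := by
    ext i j
    rw [Matrix.transpose_apply, Subsingleton.elim i j]
  rw [h]; exact ha

theorem tr_complex : ∀ a ∈ reg ℂ Complex.basisOneI, aᵀ ∈ reg ℂ Complex.basisOneI := by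
  rintro _ ⟨z, rfl⟩
  refine ⟨(starRingEnd ℂ) z, ?_⟩
  show Algebra.leftMulMatrix Complex.basisOneI ((starRingEnd ℂ) z) =
    (Algebra.leftMulMatrix Complex.basisOneI z)ᵀ
  rw [Algebra.leftMulMatrix_complex, Algebra.leftMulMatrix_complex]
  ext i j
  fin_cases i <;> fin_cases j <;> simp

/-- the quaternions, as a quaternion algebra -/
abbrev QQ : Type := QuaternionAlgebra ℝ (-1) 0 (-1)

/-- the basis `1, i, j, k` -/
noncomputable abbrev qb : Module.Basis (Fin 4) ℝ QQ := QuaternionAlgebra.basisOneIJK (-1 : ℝ) 0 (-1)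

theorem quat_entry (z : QQ) (i j : Fin 4) :
    Algebra.leftMulMatrix qb z i j =
      ![(z * qb j).re, (z * qb j).imI, (z * qb j).imJ, (z * qb j).imK] i := by
  rw [Algebra.leftMulMatrix_eq_repr_mul, QuaternionAlgebra.coe_basisOneIJK_repr]

theorem tr_quat' (z : QQ) :
    Algebra.leftMulMatrix qb (star z) = (Algebra.leftMulMatrix qb z)ᵀ := by
  ext i j
  rw [Matrix.transpose_apply, quat_entry, quat_entry, Pool.Agent.QSN.H12.quat_basis,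
    Pool.Agent.QSN.H12.quat_basis]
  fin_cases i <;> fin_cases j <;> simp

theorem tr_quat : ∀ a ∈ reg (Quaternion ℝ) (QuaternionAlgebra.basisOneIJK (-1) 0 (-1)),
    aᵀ ∈ reg (Quaternion ℝ) (QuaternionAlgebra.basisOneIJK (-1) 0 (-1)) := by
  rintro _ ⟨z, rfl⟩
  exact ⟨star z, tr_quat' z⟩

theorem hi_ne : Algebra.leftMulMatrix qb (⟨0, 1, 0, 0⟩ : QQ) ≠ 0 := by
  intro h
  have h1 : Algebra.leftMulMatrix qb (⟨0, 1, 0, 0⟩ : QQ) 1 0 = 0 := by rw [h]; rfl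
  rw [quat_entry, Pool.Agent.QSN.H12.quat_basis] at h1
  simp at h1

theorem hi_tr : (Algebra.leftMulMatrix qb (⟨0, 1, 0, 0⟩ : QQ))ᵀ =
    (-1 : ℝ) • Algebra.leftMulMatrix qb (⟨0, 1, 0, 0⟩ : QQ) := by
  ext i j
  rw [Matrix.transpose_apply, Matrix.smul_apply, quat_entry, quat_entry,
    Pool.Agent.QSN.H12.quat_basis, Pool.Agent.QSN.H12.quat_basis]
  fin_cases i <;> fin_cases j <;> simp

theorem herm_neg {k : ℕ} {𝔻 : Subalgebra ℝ (Matrix (Fin k) (Fin k) ℝ)} (hk : 0 < k)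
    (h1 : RatSp 𝔻) (h2 : ∀ a ∈ 𝔻, aᵀ ∈ 𝔻) (h3 : ∀ a ∈ 𝔻, a ≠ 0 → ∃ b ∈ 𝔻, a * b = 1) :
    Herm 𝔻 (-1) := by
  refine ⟨h1, h2, h3, 1, one_mem _, ?_, ?_⟩
  · intro h
    have := congrArg (fun M : Matrix (Fin k) (Fin k) ℝ => M ⟨0, hk⟩ ⟨0, hk⟩) h
    simp at this
  · rw [Matrix.transpose_one, neg_neg, one_smul]

theorem alc : AlcStmt := by
  obtain ⟨s1, s2, s3⟩ := Pool.Agent.QSN.H12.sls
  refine ⟨⟨⟨tr_real, inv_reg _ _⟩, herm_neg (by norm_num) s1 tr_real (inv_reg _ _)⟩,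
    ⟨⟨tr_complex, inv_reg _ _⟩, ⟨s2, tr_complex, inv_reg _ _, ?_⟩,
      herm_neg (by norm_num) s2 tr_complex (inv_reg _ _)⟩,
    ⟨⟨tr_quat, inv_reg _ _⟩, ⟨s3, tr_quat, inv_reg _ _, ?_⟩,
      herm_neg (by norm_num) s3 tr_quat (inv_reg _ _)⟩⟩
  · refine ⟨Algebra.leftMulMatrix Complex.basisOneI Complex.I, ⟨Complex.I, rfl⟩, ?_, ?_⟩
    · intro h
      rw [Algebra.leftMulMatrix_complex] at h
      have := congrArg (fun M : Matrix (Fin 2) (Fin 2) ℝ => M 1 0) h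
      simp at this
    · rw [Algebra.leftMulMatrix_complex]
      ext i j
      fin_cases i <;> fin_cases j <;> simp
  · exact ⟨Algebra.leftMulMatrix qb (⟨0, 1, 0, 0⟩ : QQ), ⟨_, rfl⟩, hi_ne, hi_tr⟩

end Pool.Agent.QSB.H30A

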